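import Mathlib
import Pool.Agent.Lib.MP_446da5_lc.Big.Final

set_option autoImplicit false

namespace Pool.Agent.Results.MP_446da5_lc.AboveContinuum

open Cardinal Pool.Agent.Lib.Common.Forcing Pool.Agent.Lib.MP_446da5_lc

/-- Relative to a measurable cardinal, the negated form of Q1 is consistent with `γ = ω` and
`2 ^ ω < κ`: there is a countable transitive model of ZFC in which a regular `κ` above the
continuum is generically measurable, witnessed by a `<ω`-closed forcing, and Choose has no winning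
strategy in `U(κ, ≤ω)`. -/
theorem result
    (h : ∃ (X : Type) (U : Ultrafilter X), Uncountable X ∧ (∀ x, {x} ∉ U) ∧
      CardinalInterFilter (U : Filter X) #X) :
    ∃ M κ Q R : ZFSet.{0}, IsCTM M ∧ RegUnc M κ ∧ SmallCont M κ ∧ IsForcing M Q R ∧
      ClosedLtOmega Q R ∧ (∃ G, Generic M Q R G) ∧ GenMeas M κ Q R ∧ ¬ ChooseWinsIn M κ := by
  obtain ⟨X, U, _, h1, _⟩ := h
  obtain ⟨_, _, U', hU⟩ := exists_meas U h1
  obtain ⟨g, hR, hs, hw⟩ := Big.exists_model hU
  exact ⟨g.M, _, _, _, Gen.isCTM, hR.regUnc, hs, hR.isForcing, hR.closed,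
    Big.exists_generic Gen.isCTM hR.isForcing, hR.genMeas (Big.cc _) hU, hw⟩

end Pool.Agent.Results.MP_446da5_lc.AboveContinuum
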