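import Mathlib
import Pool.Agent.Lib.MP_446da5_lc.Full.Defs
import Pool.Agent.Lib.MP_446da5_lc.Both.Defs
import Pool.Agent.Lib.MP_446da5_lc.Both.Final

set_option autoImplicit false

namespace Pool.Agent.Results.MP_446da5_lc.AbovePower

open Pool.Agent.Lib.MP_446da5_lc.Full Pool.Agent.Lib.MP_446da5_lc.Both

universe u

/-- If there is a measurable cardinal (the cardinality of `K`), then there is a countable
transitive model of ZFC in which, for some uncountable regular `γ` and regular `κ > 2 ^ γ`, `κ` is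
generically measurable as witnessed by a `<γ`-closed forcing but Choose does not win
`U(κ, ≤γ)`. -/
theorem result (K : Type u) (U : Ultrafilter K) (hK : Uncountable K) (h0 : ∀ x, {x} ∉ U)
    (hU : CardinalInterFilter (U : Filter K) (Cardinal.mk K)) :
    ∃ N : Set ZFSet.{0}, N.Countable ∧ IsModel N ∧ ∃ γ κ P R : ZFSet.{0},
      ZFSet.omega ∈ γ ∧ γ ∈ κ ∧ RegularIn N γ ∧ RegularIn N κ ∧ SmallPow N γ κ ∧
      ClosedForcing N γ P R ∧ (∃ H, Generic N P R H) ∧ GenMeasurable N κ P R ∧
      ¬ ChooseWinsIn N κ γ :=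
  Pool.Agent.Lib.MP_446da5_lc.Both.main K U h0 hU

end Pool.Agent.Results.MP_446da5_lc.AbovePower
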