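import Mathlib
import Pool.Agent.Lib.MP_446da5_lc.Defs
import Pool.Agent.Lib.MP_446da5_lc.Final

set_option autoImplicit false

namespace Pool.Agent.Results.MP_446da5_lc.ChooseLoses

open Cardinal Pool.Agent.Lib.MP_446da5_lc

/-- For an infinite regular cardinal `γ`, Choose has no winning strategy in `U(κ, ≤γ)` if
`κ = γ⁺`, or `κ < 2^γ`, or `κ = 2^γ = 2^(2^{<γ})`. -/
theorem result (γ κ : Cardinal.{0}) (hγ : γ.IsRegular)
    (h : κ = Order.succ γ ∨ κ < 2 ^ γ ∨ (κ = 2 ^ γ ∧ κ = 2 ^ (2 ^< γ))) :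
    ¬ ChooseWins κ γ := by
  rcases h with rfl | h | ⟨rfl, h⟩
  · refine not_chooseWins hγ (Order.succ_le_of_lt (cantor γ)) ?_
    by_cases h : 2 ^< γ ≤ γ
    · exact Or.inr (Or.inl (power_le_power_left two_ne_zero h))
    · rw [powerlt_le] at h
      push Not at h
      obtain ⟨δ, hδ, h⟩ := h
      exact Or.inr (Or.inr ⟨δ, hδ, Order.succ_le_of_lt h⟩)
  · exact not_chooseWins hγ h.le (Or.inl h)
  · exact not_chooseWins hγ le_rfl (Or.inr (Or.inl h.ge))

end Pool.Agent.Results.MP_446da5_lc.ChooseLoses
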